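import Pool.Agent.H62.Pb4

set_option autoImplicit false

namespace Pool.Agent.Results.MP_7e7dce_lc.Equal

open Pool.Agent.H62.Pb

theorem result (V : Type) [AddCommGroup V] [LinearOrder V] [IsOrderedAddMonoid V] [Countable V]
    [Nontrivial V] (hdiv : ∀ (n : ℕ) (v : V), n ≠ 0 → ∃ w, n • w = v) :
    DgSp V ![0] = DgSp (V ×ₗ ℤ) ![0, toLex (0, 1)] :=
  spec_eq V hdiv _ _

end Pool.Agent.Results.MP_7e7dce_lc.Equal
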